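import Pool.Agent.Work.MP_163d7b_co.Example

/-! A tree that is antimagic but not strongly antimagic. -/

set_option autoImplicit false

namespace Pool.Agent.Results.MP_163d7b_co.TreeExample

open Finset Pool.Agent.Work.MP_163d7b_co

section Defs

variable {V : Type} [Fintype V] [DecidableEq V] (G : SimpleGraph V) [DecidableRel G.Adj]

/-- the sum of the labels of the edges incident with `v` -/
def vertexSum (f : Sym2 V → ℕ) (v : V) : ℕ := ∑ e ∈ G.incidenceFinset v, f e

/-- `f` maps the edges bijectively onto `1, …, m` and the vertex sums are pairwise distinct -/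
def IsAntimagicLabeling (f : Sym2 V → ℕ) : Prop :=
  Set.BijOn f G.edgeSet (Set.Icc 1 G.edgeFinset.card) ∧
    ∀ u v : V, u ≠ v → vertexSum G f u ≠ vertexSum G f v

/-- an antimagic labeling in which smaller degree forces a smaller vertex sum -/
def IsStronglyAntimagicLabeling (f : Sym2 V → ℕ) : Prop :=
  IsAntimagicLabeling G f ∧
    ∀ u v : V, G.degree u < G.degree v → vertexSum G f u < vertexSum G f v

theorem vertexSum_eq (f : Sym2 V → ℕ) (v : V) :
    vertexSum G f v = ∑ w ∈ G.neighborFinset v, f s(v, w) := by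
  have h : G.incidenceFinset v = (G.neighborFinset v).image fun w => s(v, w) := by
    ext e
    rw [SimpleGraph.mem_incidenceFinset, mem_image]
    constructor
    · rintro ⟨h1, h2⟩
      obtain ⟨w, rfl⟩ := Sym2.mem_iff_exists.1 h2
      exact ⟨w, (G.mem_neighborFinset v w).2 h1, rfl⟩
    · rintro ⟨w, hw, rfl⟩
      exact ⟨(G.mem_neighborFinset v w).1 hw, Sym2.mem_mk_left v w⟩
  rw [vertexSum, h, sum_image]
  intro x _ y _ hxy
  exact Sym2.congr_right.1 hxy

end Defs

set_option synthInstance.maxSize 1024 in
theorem result : ∃ (V : Type) (_ : Fintype V) (_ : DecidableEq V) (G : SimpleGraph V)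
    (_ : DecidableRel G.Adj), G.IsTree ∧ Fintype.card V = 1608 ∧
      (∃ f, IsAntimagicLabeling G f) ∧ ¬ ∃ f, IsStronglyAntimagicLabeling G f := by
  have hc : Fintype.card (Option W) = 1608 := by rw [Fintype.card_option, card_W]
  refine ⟨Option W, inferInstance, inferInstance, tree par ht hht, inferInstance, ?_, hc, ?_, ?_⟩
  · rw [SimpleGraph.isTree_iff_connected_and_card]
    refine ⟨connected _ _ _, ?_⟩
    rw [Nat.card_eq_fintype_card, Nat.card_eq_fintype_card, ← SimpleGraph.edgeFinset_card,
      card_edges, hc, card_W]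
  · obtain ⟨f, h1, h2⟩ := exists_labelling par ht hht g0 g0_inj g0_range (vs_g0 ▸ s0_inj)
    refine ⟨f, h1, fun u v huv h => huv (h2 ?_)⟩
    rwa [vertexSum_eq, vertexSum_eq] at h
  · rintro ⟨f, ⟨h1, h2⟩, h3⟩
    obtain ⟨g, a1, a2, a3, a4, a5⟩ := of_strong par ht hht f h1
      (fun u v h => by
        by_contra huv
        refine h2 u v huv ?_
        rw [vertexSum_eq, vertexSum_eq]
        exact h)
      (fun u v h => by
        have := h3 u v h
        rwa [vertexSum_eq, vertexSum_eq] at this)
    exact no_strong g a1 a2 a3 a4 a5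

end Pool.Agent.Results.MP_163d7b_co.TreeExample
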